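import Pool.Agent.Lib.helper16.Auer

set_option autoImplicit false

open Set Pool.Agent.Lib.helper16 Pool.Agent.Lib.helper16.Auer
open scoped ZeroAtInfty BoundedContinuousFunction

namespace Pool.Agent.Results.MP_735d18_an.Disproof

universe u

def J : Type := (Cardinal.aleph 1).ord.ToType

noncomputable instance : LinearOrder J := inferInstanceAs (LinearOrder (Cardinal.aleph 1).ord.ToType)
instance : WellFoundedLT J := inferInstanceAs (WellFoundedLT (Cardinal.aleph 1).ord.ToType)
instance : TopologicalSpace J := ⊥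
instance : DiscreteTopology J := ⟨rfl⟩

lemma mk_J : Cardinal.mk J = Cardinal.aleph 1 := Cardinal.mk_ord_toType _

instance : Uncountable J := by
  rw [← Cardinal.aleph0_lt_mk_iff, mk_J]
  exact Cardinal.aleph0_lt_aleph_one

lemma Iio_c (b : J) : (Iio b).Countable := by
  have := (Cardinal.mk_Iio_toType_ord_lt b).trans_eq Cardinal.succ_aleph0.symm
  exact Cardinal.le_aleph0_iff_set_countable.mp (Order.lt_succ_iff.mp this)

variable (e : J → J → ℕ) (emb : J → ℕ → Bool)

def E (_e : J → J → ℕ) (_emb : J → ℕ → Bool) : Type := C₀(J, ℝ)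

noncomputable instance : AddCommGroup (E e emb) := inferInstanceAs (AddCommGroup C₀(J, ℝ))
noncomputable instance : Module ℝ (E e emb) := inferInstanceAs (Module ℝ C₀(J, ℝ))

noncomputable def toC : E e emb ≃ₗ[ℝ] C₀(J, ℝ) := LinearEquiv.refl ℝ C₀(J, ℝ)

lemma T_inj : Function.Injective ((T e emb).comp (toC e emb).toLinearMap) := by
  rw [injective_iff_map_eq_zero]
  intro x hx
  have := le_T e emb (toC e emb x)
  rw [show T e emb (toC e emb x) = 0 from hx, norm_zero, mul_zero, norm_le_zero_iff] at this
  simpa using this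

noncomputable instance : NormedAddCommGroup (E e emb) :=
  NormedAddCommGroup.induced _ _ ((T e emb).comp (toC e emb).toLinearMap) (T_inj e emb)

noncomputable instance : NormedSpace ℝ (E e emb) :=
  NormedSpace.induced ℝ _ _ ((T e emb).comp (toC e emb).toLinearMap)

lemma norm_E (x : E e emb) : ‖x‖ = ‖T e emb (toC e emb x)‖ := rfl

noncomputable def eC : E e emb ≃L[ℝ] C₀(J, ℝ) :=
  (toC e emb).toContinuousLinearEquivOfBounds (3 / 2) 2 (fun x => by rw [norm_E]; exact le_T e emb _)
    (fun x => by rw [norm_E]; simpa using T_le e emb x)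

instance : CompleteSpace (E e emb) :=
  (completeSpace_congr (e := (eC e emb).toEquiv) (eC e emb).isUniformEmbedding).mpr inferInstance

open Classical in
/-- There is a real Banach space in which every normal biorthogonal system is countable and no
normal biorthogonal system is total. -/
theorem result : ∃ (E : Type) (_ : NormedAddCommGroup E) (_ : NormedSpace ℝ E)
    (_ : CompleteSpace E), ∀ (ι : Type u) (x : ι → E) (f : ι → E →L[ℝ] ℝ),
      (∀ i j, f i (x j) = if i = j then 1 else 0) → (∀ i, ‖x i‖ = 1) → (∀ i, ‖f i‖ = 1) →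
        Countable ι ∧ ∃ y : E, y ≠ 0 ∧ ∀ i, f i y = 0 := by
  obtain ⟨e, hinj, hcoh⟩ := Rho.exists_coh Iio_c
  obtain ⟨emb⟩ : Nonempty (J ↪ (ℕ → Bool)) := by
    rw [← Cardinal.le_def, mk_J]
    simpa using Cardinal.aleph_one_le_continuum
  refine ⟨E e emb, inferInstance, inferInstance, inferInstance, fun ι x f hb hx hf => ?_⟩
  have hf' : ∀ i y, ((f i).toLinearMap.comp (toC e emb).symm.toLinearMap) y ≤ ‖T e emb y‖ := by
    intro i y
    have := (f i).le_opNorm ((toC e emb).symm y)
    rw [hf, one_mul, norm_E, LinearEquiv.apply_symm_apply] at this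
    exact le_trans (le_abs_self _) this
  have hc := countable_system e emb Iio_c emb.injective hinj hcoh (fun i => toC e emb (x i))
    (fun i => (f i).toLinearMap.comp (toC e emb).symm.toLinearMap) hx hf'
    (fun i j => by simpa using hb i j)
  refine ⟨hc, ?_⟩
  obtain ⟨y, hy, hy2⟩ := not_total e emb Iio_c (fun i => toC e emb (x i))
    (fun i => (f i).toLinearMap.comp (toC e emb).symm.toLinearMap) hx hf'
    (fun i => by simpa using hb i i)
  exact ⟨(toC e emb).symm y, by simpa using hy, hy2⟩

end Pool.Agent.Results.MP_735d18_an.Disproof
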